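import Pool.Agent.H91.CovPoly.Main

/-!
# Polytopes with `m` facets which cannot be covered by `m` sets of smaller diameter
-/

set_option autoImplicit false

namespace Pool.Agent.Results.MP_5ac6d8_co.MetricPolytopes

/-- `P` is a `d`-dimensional convex polytope in `ℝ ^ d`: a bounded intersection of finitely many
closed half-spaces with nonempty interior -/
def IsPolytope {d : ℕ} (P : Set (EuclideanSpace ℝ (Fin d))) : Prop :=
  (∃ (m : ℕ) (a : Fin m → EuclideanSpace ℝ (Fin d)) (b : Fin m → ℝ), (∀ i, a i ≠ 0) ∧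
    P = {x | ∀ i, inner ℝ (a i) x ≤ b i}) ∧
  Bornology.IsBounded P ∧ (interior P).Nonempty

/-- `F` is a facet of `P`: a nonempty face, that is a set `{x ∈ P | ⟨a, x⟩ = c}` where
`⟨a, x⟩ ≤ c` on `P`, of dimension `d - 1` -/
def IsFacet {d : ℕ} (P F : Set (EuclideanSpace ℝ (Fin d))) : Prop :=
  F.Nonempty ∧ (∃ (a : EuclideanSpace ℝ (Fin d)) (c : ℝ), (∀ x ∈ P, inner ℝ a x ≤ c) ∧
    F = {x | x ∈ P ∧ inner ℝ a x = c}) ∧
  Module.finrank ℝ (vectorSpan ℝ F) + 1 = d

/-- `P` has exactly `m` facets -/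
def HasFacets {d : ℕ} (P : Set (EuclideanSpace ℝ (Fin d))) (m : ℕ) : Prop :=
  {F | IsFacet P F}.Finite ∧ {F | IsFacet P F}.ncard = m

/-- `P` can be covered by `N` sets of smaller diameter (subsets of `ℝ ^ d`, diameters in
`[0, ∞]`) -/
def Coverable {d : ℕ} (P : Set (EuclideanSpace ℝ (Fin d))) (N : ℕ) : Prop :=
  ∃ A : Fin N → Set (EuclideanSpace ℝ (Fin d)), P ⊆ ⋃ i, A i ∧
    ∀ i, Metric.ediam (A i) < Metric.ediam P

/-- For every prime `p` there is a polytope `P` in dimension `d = (4 p choose 2)` with exactly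
`m = 4 (4 p choose 3)` facets such that each cover of `P` by `N` sets of smaller diameter has
`8 p N ≥ (27 / 16) ^ p`; for `p ≥ 29` no `m` sets of smaller diameter cover it.  For every `k`
there is a polytope with `m` facets, for some `d` and `m`, which cannot be covered by `m ^ k` sets
of smaller diameter. -/
theorem result :
    (∀ p : ℕ, p.Prime → ∃ P : Set (EuclideanSpace ℝ (Fin ((4 * p).choose 2))),
      IsPolytope P ∧ HasFacets P (4 * (4 * p).choose 3) ∧
      (∀ N : ℕ, Coverable P N → (27 / 16 : ℝ) ^ p ≤ 8 * p * N) ∧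
      (29 ≤ p → ¬ Coverable P (4 * (4 * p).choose 3))) ∧
    ∀ k : ℕ, ∃ (d m : ℕ) (P : Set (EuclideanSpace ℝ (Fin d))), 1 ≤ d ∧ IsPolytope P ∧
      HasFacets P m ∧ ¬ Coverable P (m ^ k) := by
  constructor
  · intro p hp
    have h : ∃ P : Set (EuclideanSpace ℝ (Fin (H91.CovPoly.dim (4 * p)))),
        IsPolytope P ∧ HasFacets P (4 * (4 * p).choose 3) ∧
        (∀ N : ℕ, Coverable P N → (27 / 16 : ℝ) ^ p ≤ 8 * p * N) ∧
        (29 ≤ p → ¬ Coverable P (4 * (4 * p).choose 3)) := by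
      refine ⟨H91.CovPoly.MP (4 * p), ?_, H91.CovPoly.MP_facets (4 * p),
        H91.CovPoly.cover_bound' p hp, H91.CovPoly.not_coverable p hp⟩
      have := H91.CovPoly.MP_polytope (k := 2 * p) (by have := hp.two_le; omega)
      rw [← mul_assoc] at this
      exact this
    rw [show H91.CovPoly.dim (4 * p) = (4 * p).choose 2 from H91.CovPoly.card_pairs (4 * p)] at h
    exact h
  · intro k
    obtain ⟨p₀, h⟩ := H91.CovPoly.not_coverable_pow k
    obtain ⟨p, hp, hprime⟩ := Nat.exists_infinite_primes p₀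
    refine ⟨_, _, H91.CovPoly.MP (4 * p), ?_, ?_, H91.CovPoly.MP_facets (4 * p), h p hp hprime⟩
    · exact Fintype.card_pos_iff.2 ⟨⟨(⟨0, by have := hprime.two_le; omega⟩,
        ⟨1, by have := hprime.two_le; omega⟩), by simp [Fin.lt_def]⟩⟩
    · have := H91.CovPoly.MP_polytope (k := 2 * p) (by have := hprime.two_le; omega)
      rw [← mul_assoc] at this
      exact this

end Pool.Agent.Results.MP_5ac6d8_co.MetricPolytopes
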